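import Pool.Agent.J4H70.ML.H

set_option autoImplicit false

/-! # Calm parameters: the orbits of all parameters in small discs stay bounded for a long time -/

namespace Pool.Agent.J4H70.AS

open Filter Topology Set Metric MeasureTheory Pool.Agent.H712R2
open Pool.Agent.Y736.RN
open Pool.Agent.J4H70.ML (circles_null)
open N62a1eb23

variable {d p : ℕ}

/-- the orbits of all parameters in the disc of radius `exp (- X n)` stay bounded up to time `n` -/
def Calm (d : ℕ) (X : ℝ) (c : ℂ) : Prop :=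
  ∀ᶠ n : ℕ in atTop, ∀ a : ℂ, ‖a - c‖ ≤ Real.exp (-(X * n)) → ∀ m ≤ n, ‖P d m a‖ ≤ 3

/-- escape -/
theorem double (hd : 2 ≤ d) {a : ℂ} (ha : ‖a‖ ≤ 3) {m : ℕ} (h : 3 < ‖P d m a‖) (k : ℕ) :
    2 ^ k * 3 ≤ ‖P d (m + k) a‖ := by
  induction k with
  | zero => simpa using h.le
  | succ k ih =>
    have h3 : (3 : ℝ) ≤ 2 ^ k * 3 := by
      have : (1 : ℝ) ≤ 2 ^ k := one_le_pow₀ (by norm_num)
      linarith
    have h0 : 3 ≤ ‖P d (m + k) a‖ := h3.trans ih
    rw [show m + (k + 1) = (m + k) + 1 by ring, P_succ]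
    have h1 : ‖P d (m + k) a ^ d‖ - ‖a‖ ≤ ‖P d (m + k) a ^ d + a‖ := by
      have := norm_sub_norm_le (P d (m + k) a ^ d) (-a)
      rwa [norm_neg, sub_neg_eq_add] at this
    have h2 : ‖P d (m + k) a‖ ^ 2 ≤ ‖P d (m + k) a ^ d‖ := by
      rw [norm_pow]
      exact pow_le_pow_right₀ (by linarith) hd
    have h4 : (2 : ℝ) ^ (k + 1) = 2 * 2 ^ k := by ring
    rw [h4]
    nlinarith

/-- the iterates of bounded order are bounded -/
theorem it_bound (d p : ℕ) {V : Set ℂ} (hVb : Bornology.IsBounded V) :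
    ∃ R : ℝ, ∀ a : ℂ, ‖a‖ ≤ 3 → ∀ z ∈ V, ∀ s < p, ‖(fc d a)^[s] z‖ ≤ R := by
  have h1 : ∀ s : ℕ, ∃ R : ℝ, ∀ a : ℂ, ‖a‖ ≤ 3 → ∀ z ∈ V, ‖(fc d a)^[s] z‖ ≤ R := by
    intro s
    have hc : IsCompact (closedBall (0 : ℂ) 3 ×ˢ closure V) :=
      (isCompact_closedBall _ _).prod
        (Metric.isCompact_of_isClosed_isBounded isClosed_closure hVb.closure)
    obtain ⟨R, hR⟩ := hc.exists_bound_of_continuousOn
      (f := fun q : ℂ × ℂ => (fc d q.1)^[s] q.2) (cont_it d s).continuousOn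
    refine ⟨R, fun a ha z hz => hR (a, z) ⟨?_, subset_closure hz⟩⟩
    rwa [mem_closedBall_zero_iff]
  choose R hR using h1
  refine ⟨∑ s ∈ Finset.range p, |R s|, fun a ha z hz s hs => ?_⟩
  refine (hR s a ha z hz).trans ((le_abs_self _).trans ?_)
  exact Finset.single_le_sum (f := fun s => |R s|) (fun _ _ => abs_nonneg _)
    (Finset.mem_range.2 hs)

/-- slow exits give calm parameters -/
theorem calm_of_slow (hd : 2 ≤ d) (hp : 1 ≤ p) {V : Set ℂ} (hVb : Bornology.IsBounded V) {c : ℂ}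
    (hc : ‖c‖ ≤ 2) {X X' : ℝ} (hX' : 0 < X') (hXX : X' < X) (hF : ¬ Fast d p V (p * X') c) :
    Calm d X c := by
  obtain ⟨R, hR⟩ := it_bound d p hVb
  obtain ⟨k, hk⟩ := pow_unbounded_of_one_lt R (show (1 : ℝ) < 2 by norm_num)
  unfold Fast at hF
  rw [not_frequently, eventually_atTop] at hF
  obtain ⟨N₀, hN₀⟩ := hF
  obtain ⟨N₁, hN₁⟩ := exists_nat_ge (X' * k / (X - X'))
  have hX : 0 < X := hX'.trans hXX
  filter_upwards [eventually_ge_atTop (p * N₀), eventually_ge_atTop N₁] with n hn0 hn1 a ha m hm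
  by_contra hcon
  push Not at hcon
  have hexp1 : Real.exp (-(X * n)) ≤ 1 := by
    rw [Real.exp_le_one_iff]
    have : (0 : ℝ) ≤ n := Nat.cast_nonneg n
    have := mul_nonneg hX.le this
    linarith
  have ha3 : ‖a‖ ≤ 3 := by
    have h1 : a = (a - c) + c := by ring
    rw [h1]
    have := norm_add_le (a - c) c
    linarith
  have h1 := double hd ha3 hcon k
  obtain ⟨j, hj⟩ : ∃ j, j = (n + k) / p := ⟨_, rfl⟩
  have hjN : N₀ ≤ j := by
    rw [hj, Nat.le_div_iff_mul_le hp, Nat.mul_comm]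
    omega
  have hpj : p * j ≤ n + k := by
    rw [hj]
    exact Nat.mul_div_le _ _
  have hn1' : X' * k / (X - X') ≤ n := hN₁.trans (by exact_mod_cast hn1)
  rw [div_le_iff₀ (by linarith)] at hn1'
  have hexp : Real.exp (-(X * n)) ≤ Real.exp (-(p * X' * j)) := by
    apply Real.exp_le_exp.2
    have h2 : (p : ℝ) * j ≤ n + k := by exact_mod_cast hpj
    have h3 : (p : ℝ) * X' * j ≤ X' * (n + k) := by
      calc (p : ℝ) * X' * j = X' * (p * j) := by ring
        _ ≤ X' * (n + k) := by gcongr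
    nlinarith
  have h2 := hN₀ j hjN
  push Not at h2
  have h3 : P d (p * ((m + k) / p)) a ∈ V := by
    apply h2 a
    · rw [mem_closedBall, dist_eq_norm]
      exact ha.trans hexp
    · rw [hj]
      exact Nat.div_le_div_right (by omega)
  have h4 := hR a ha3 _ h3 ((m + k) % p) (Nat.mod_lt _ hp)
  rw [iter_P, Nat.mod_add_div] at h4
  have h5 : (2 : ℝ) ^ k ≤ 2 ^ k * 3 := by
    have : (0 : ℝ) ≤ 2 ^ k := by positivity
    linarith
  linarith

/-- almost every circle meets the boundary in calm parameters only -/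
theorem ae_calm (hd : 2 ≤ d) (p₀ : ℂ) :
    ∀ᵐ s : ℝ, ∀ c ∈ frontier (multibrotSet d), dist c p₀ = s →
      ∀ p : ℕ, 1 ≤ p → Ren d c p → ∀ X : ℝ, Real.log d / p < X → Calm d X c := by
  have hdR : (1 : ℝ) < d := by exact_mod_cast (by omega : 1 < d)
  have hlogd : 0 < Real.log d := Real.log_pos hdR
  have h1 : ∀ (p : ℕ) (q : ℚ), 1 ≤ p → Real.log d / p < (q : ℝ) →
      ∀ᵐ s : ℝ, ∀ c : ℂ, dist c p₀ = s →
        c ∉ ⋃ V ∈ {V : Set ℂ | V ∈ FamV ∧ Bornology.IsBounded V},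
          {c | Good d p V c ∧ Fast d p V (p * q) c} := by
    intro p q hp hq
    have hp0 : (0 : ℝ) < p := by exact_mod_cast hp
    have hq0 : (0 : ℝ) < q := lt_trans (by positivity) hq
    have h2 : dimH (⋃ V ∈ {V : Set ℂ | V ∈ FamV ∧ Bornology.IsBounded V},
        {c | Good d p V c ∧ Fast d p V (p * q) c}) < 1 := by
      refine lt_of_le_of_lt ?_ (show ENNReal.ofReal (Real.log d / (p * q)) < 1 by
        rw [← ENNReal.ofReal_one, ENNReal.ofReal_lt_ofReal_iff one_pos, div_lt_one (by positivity)]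
        rwa [div_lt_iff₀ hp0, mul_comm] at hq)
      rw [dimH_bUnion (FamV_countable.mono fun V hV => hV.1)]
      exact iSup₂_le fun V hV => dim_good lp jz qs dc seq hd hp (FamV_open hV.1) hV.2
        (by positivity)
    have h3 := circles_null h2 p₀
    filter_upwards [measure_eq_zero_iff_ae_notMem.1 h3] with s hs c hc hcon
    exact hs ⟨c, hcon, hc⟩
  have h2 : ∀ᵐ s : ℝ, ∀ (p : ℕ) (q : ℚ), 1 ≤ p → Real.log d / p < (q : ℝ) →
      ∀ c : ℂ, dist c p₀ = s →
        c ∉ ⋃ V ∈ {V : Set ℂ | V ∈ FamV ∧ Bornology.IsBounded V},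
          {c | Good d p V c ∧ Fast d p V (p * q) c} := by
    rw [ae_all_iff]; intro p
    rw [ae_all_iff]; intro q
    by_cases hp : 1 ≤ p
    · by_cases hq : Real.log d / p < (q : ℝ)
      · filter_upwards [h1 p q hp hq] with s hs _ _
        exact hs
      · exact ae_of_all _ fun s _ h => absurd h hq
    · exact ae_of_all _ fun s h => absurd h hp
  filter_upwards [h2] with s hs c hc hcs p hp hr X hX
  have hp0 : (0 : ℝ) < p := by exact_mod_cast hp
  obtain ⟨q, hq1, hq2⟩ := exists_rat_btwn hX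
  have hq0 : (0 : ℝ) < q := lt_trans (by positivity) hq1
  have hcM : c ∈ multibrotSet d := (isCompact_multibrot hd).isClosed.frontier_subset hc
  have hc2 : ‖c‖ ≤ 2 := by
    have := (mem_multibrot_iff hd c).1 hcM 1
    rwa [P_one hd] at this
  obtain ⟨V, hV, _, hVb, hg⟩ := good_of_ren hr
  refine calm_of_slow hd hp hVb hc2 hq0 hq2 fun hF => ?_
  apply hs p q hp hq1 c hcs
  rw [mem_iUnion₂]
  exact ⟨V, ⟨hV, hVb⟩, hg, hF⟩

end Pool.Agent.J4H70.AS
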